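import Pool.Agent.U208.HE.Conj
import Pool.Agent.Results.MP_636246_an.EveryMapWithASink

/-!
# Equilibrium states of complex Henon maps: Q1 fails for every map with a sink or a source

Let `f` be a complex Henon map with an attracting or repelling cycle `O` (and a second cycle), and
let `b` be a bump at the cycle. For EVERY Hölder weight `ψ` the pressure of `ψ + t b` is
`max A (B + t)`, `B` the mean value of `ψ` on the cycle, and the uniqueness or the existence of the
equilibrium states fails for some `t`. For `ψ = 0` one of the weights `0` and `h b` has not exactly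
one equilibrium state, where `h` is the supremum of the entropies of the invariant measures, so
that the number `c` in Q2 is at most `h` for all these maps.
-/

set_option autoImplicit false

open MeasureTheory Filter Topology

namespace Pool.Agent.Results.MP_eeb913_an.SinksAndSources

open Pool.Agent.Helper179.KS Pool.Agent.Helper179.Eq Pool.Agent.Y203.HN Pool.Agent.U208.HE
open Pool.Agent.Results.MP_636246_an.EveryMapWithASink (holder_continuous holder_add_bump)
open Pool.Agent.Results.MP_636246_an.SinkSaddles (elementaryHenon)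

/-- The supremum of the entropies of the invariant probability measures. -/
noncomputable def entropySup (f : ℂ × ℂ → ℂ × ℂ) : EReal :=
  ⨆ (ν : Measure (ℂ × ℂ)) (_ : IsInvariantProb f ν), ksEntropy ν f

/-- `b` is a Lipschitz function with compact support and values in `[0, 1]`, equal to `1` on the
forward orbit of `p`. -/
structure IsCycleBump (f : ℂ × ℂ → ℂ × ℂ) (p : ℂ × ℂ) (b : ℂ × ℂ → ℝ) : Prop where
  compact : HasCompactSupport b
  range : ∀ z, 0 ≤ b z ∧ b z ≤ 1
  one : ∀ i : ℕ, b (f^[i] p) = 1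
  lip : ∃ L : ℝ, ∀ z w : ℂ × ℂ,
    |b z - b w| ≤ L * Real.sqrt (‖z.1 - w.1‖ ^ 2 + ‖z.2 - w.2‖ ^ 2)

lemma exists_inv0 {f : ℂ × ℂ → ℂ × ℂ} {p : ℂ × ℂ} {m : ℕ} {K U : Set (ℂ × ℂ)} {H : ℝ}
    (D : CycleData f m p K U H) {l : ℕ} {q : ℂ × ℂ} (hl : 0 < l) (hq : f^[l] q = q)
    (hqp : q ∉ orb f p) : Inv0 f p (cyc f l q) := by
  refine ⟨cyc_inv (f := f) (p := q) D.meas hl hq, ?_⟩
  have hO := orb_meas D.mpos D.per
  have hmem : ∀ i : ℕ, f^[i] q ∉ orb f p := by
    intro i hi
    apply hqp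
    have h1 := orb_iterate hi (l * i - i)
    rw [← Function.iterate_add_apply] at h1
    have h2 : l * i - i + i = l * i := Nat.sub_add_cancel (Nat.le_mul_of_pos_left i hl)
    rw [h2, Function.iterate_mul] at h1
    rwa [Function.iterate_fixed hq i] at h1
  unfold cyc
  rw [Measure.smul_apply, Measure.finsetSum_apply]
  have : ∀ i ∈ Finset.range l, (Measure.dirac (f^[i] q) : Measure (ℂ × ℂ)) (orb f p) = 0 := by
    intro i _
    rw [Measure.dirac_apply' _ hO, Set.indicator_of_notMem (hmem i)]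
  rw [Finset.sum_eq_zero this, smul_zero]

/-- all the statements for one map -/
def Claim (f : ℂ × ℂ → ℂ × ℂ) (m : ℕ) (p : ℂ × ℂ) : Prop :=
  ∃ (b : ℂ × ℂ → ℝ) (h : ℝ), IsCycleBump f p b ∧ 0 ≤ h ∧ entropySup f = (h : EReal) ∧
    (∃ t : ℝ, (t = 0 ∨ t = h) ∧ ¬ ∃! ν, IsEquilibriumState f (fun z => t * b z) ν) ∧
    ∀ ψ : ℂ × ℂ → ℝ, IsHolder ψ →
      (∀ t : ℝ, IsHolder (fun z => ψ z + t * b z)) ∧
      (∃ t : ℝ, ¬ ∃! ν, IsEquilibriumState f (fun z => ψ z + t * b z) ν) ∧
      ∃ A : ℝ,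
        (∀ t : ℝ, pressure f (fun z => ψ z + t * b z) =
          ((max A (avg f m p ψ + t) : ℝ) : EReal)) ∧
        (∀ t : ℝ, A < avg f m p ψ + t → ∀ ν : Measure (ℂ × ℂ),
          IsEquilibriumState f (fun z => ψ z + t * b z) ν ↔ ν = cyc f m p) ∧
        ((∀ t : ℝ, avg f m p ψ + t < A →
            ¬ ∃ ν, IsEquilibriumState f (fun z => ψ z + t * b z) ν) ∨
          (∃ ν₁ ν₂ : Measure (ℂ × ℂ), ν₁ ≠ ν₂ ∧
            IsEquilibriumState f (fun z => ψ z + (A - avg f m p ψ) * b z) ν₁ ∧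
            IsEquilibriumState f (fun z => ψ z + (A - avg f m p ψ) * b z) ν₂))

lemma not_unique_of_two {f : ℂ × ℂ → ℂ × ℂ} {φ : ℂ × ℂ → ℝ} {ν₁ ν₂ : Measure (ℂ × ℂ)}
    (hne : ν₁ ≠ ν₂) (h1 : IsEquilibriumState f φ ν₁) (h2 : IsEquilibriumState f φ ν₂) :
    ¬ ∃! ν, IsEquilibriumState f φ ν := by
  rintro ⟨ν, _, hu⟩
  exact hne ((hu _ h1).trans (hu _ h2).symm)

theorem claim {f : ℂ × ℂ → ℂ × ℂ} (hf : IsHenonMap f) {m : ℕ} {p : ℂ × ℂ}
    (hap : Att f m p ∨ Rep f m p)
    (hq : ∃ (l : ℕ) (q : ℂ × ℂ), 0 < l ∧ f^[l] q = q ∧ q ∉ orb f p) : Claim f m p := by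
  obtain ⟨K, U, H, D⟩ := exists_cycleData hf hap
  obtain ⟨l, q, hl, hq, hqp⟩ := hq
  have hν₀ := exists_inv0 D hl hq hqp
  obtain ⟨ρ, hρ, hb0, hbc⟩ := D.exists_bump
  set b := bump (orb f p) ρ with hbdef
  have hb : IsBump f p U b := ⟨bump_continuous _ _, fun z hz => bump_mem hz, hb0⟩
  have hc0 : Continuous (fun _ : ℂ × ℂ => (0 : ℝ)) := continuous_const
  obtain ⟨h, hh⟩ := exists_A D hc0 ⟨_, hν₀⟩
  have hfe : ∀ ν, freeEnergy f (fun _ => (0 : ℝ)) ν = ksEntropy ν f := by
    intro ν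
    unfold freeEnergy
    simp
  have hle : ∀ μ, Inv0 f p μ → freeEnergy f (fun _ => (0 : ℝ)) μ ≤ (h : EReal) := by
    intro μ hμ
    rw [← hh]
    exact le_iSup_of_le μ (le_iSup_of_le hμ le_rfl)
  have hprob0 := hν₀.1.1
  have hh0 : 0 ≤ h := by
    have h1 := hle _ hν₀
    rw [hfe] at h1
    have h2 := (ksEntropy_nonneg (cyc f l q) f).trans h1
    exact_mod_cast h2
  have havg0 : avg f m p (fun _ => (0 : ℝ)) = 0 := by
    unfold avg; simp
  have hsup : entropySup f = (h : EReal) := by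
    apply le_antisymm
    · refine iSup_le fun ν => iSup_le fun hν => ?_
      have hprob := hν.1
      have h1 := freeEnergy_le D hb hc0 hν hle 0
      have h2 : freeEnergy f (fun z => (0 : ℝ) + 0 * b z) ν = ksEntropy ν f := by
        rw [← hfe ν]; congr 1; funext z; ring
      rw [h2] at h1
      refine h1.trans ?_
      rw [EReal.coe_le_coe_iff, havg0]
      have h3 : ν.real (orb f p) ≤ 1 := measureReal_le_one
      have h4 : 0 ≤ ν.real (orb f p) := measureReal_nonneg
      nlinarith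
    · rw [← hh]
      refine iSup_le fun ν => iSup_le fun hν => ?_
      rw [hfe]
      exact le_iSup_of_le ν (le_iSup_of_le hν.1 le_rfl)
  refine ⟨b, h, ⟨hbc, fun z => ⟨bump_nonneg _ _ _, bump_le_one _ hρ _⟩,
    fun i => bump_mem ⟨i, rfl⟩, ⟨ρ⁻¹, fun z w => ?_⟩⟩, hh0, hsup, ?_, ?_⟩
  · have h1 := abs_bump_sub_le (orb f p) hρ z w
    have h2 := norm_le_euclid (z - w)
    simp only [Prod.fst_sub, Prod.snd_sub] at h2
    exact h1.trans (mul_le_mul_of_nonneg_left h2 (inv_pos.2 hρ).le)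
  · have hz : ∀ t : ℝ, (fun z => (0 : ℝ) + t * b z) = fun z => t * b z := by
      intro t; funext z; ring
    by_cases hex : ∃ ν, Inv0 f p ν ∧ freeEnergy f (fun _ => (0 : ℝ)) ν = (h : EReal)
    · refine ⟨h, Or.inr rfl, ?_⟩
      obtain ⟨ν, hν, he⟩ := hex
      have h1 := equilibrium_at D hb hc0 hh (t := h) (by rw [havg0]; ring)
      rw [hz] at h1
      refine not_unique_of_two (ν₁ := cyc f m p) (ν₂ := ν) ?_ h1.1 (h1.2 ν hν he)
      rintro rfl
      have h2 := cyc_real D
      rw [Measure.real, hν.2] at h2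
      simp at h2
    · refine ⟨0, Or.inl rfl, ?_⟩
      rintro ⟨ν, hν, _⟩
      have hpos : 0 < h := by
        rcases hh0.eq_or_lt with h1 | h1
        · exfalso
          apply hex
          refine ⟨_, hν₀, le_antisymm (hle _ hν₀) ?_⟩
          rw [hfe, ← h1]
          exact ksEntropy_nonneg _ _
        · exact h1
      have h1 := (equilibrium_below D hb hc0 hh (t := 0) (by rw [havg0]; simpa using hpos) ν).1
        (by rw [hz]; exact hν)
      exact hex ⟨ν, h1⟩
  · intro ψ hψ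
    have hψc : Continuous ψ := holder_continuous hψ
    obtain ⟨A, hA⟩ := exists_A D hψc ⟨_, hν₀⟩
    have hdich := dichotomy D hb hψc hA
    refine ⟨fun t => holder_add_bump hψ (orb f p) hρ t, ?_, A,
      fun t => pressure_eq D hb hψc hA t, fun t ht ν => equilibrium_above D hb hψc hA ht ν, ?_⟩
    · rcases hdich with h1 | ⟨ν₁, ν₂, hne, h1, h2⟩
      · refine ⟨A - avg f m p ψ - 1, ?_⟩
        rintro ⟨ν, hν, _⟩
        exact h1 _ (by linarith) ⟨ν, hν⟩
      · exact ⟨_, not_unique_of_two hne h1 h2⟩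
    · rcases hdich with h1 | h1
      · left
        intro t ht
        exact h1 t (by linarith)
      · exact Or.inr h1

/-- **Equilibrium states of complex Henon maps with an attracting or repelling cycle.** -/
theorem result :
    -- the answer to Q1 is negative
    (¬ ∀ f : ℂ × ℂ → ℂ × ℂ, IsHenonMap f → ∀ φ : ℂ × ℂ → ℝ, IsHolder φ →
      ∃! ν : Measure (ℂ × ℂ), IsEquilibriumState f φ ν) ∧
    -- all maps with an attracting or repelling cycle and a second cycle, and all Hölder weights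
    (∀ f : ℂ × ℂ → ℂ × ℂ, IsHenonMap f → ∀ (m : ℕ) (p : ℂ × ℂ), (Att f m p ∨ Rep f m p) →
      (∃ (l : ℕ) (q : ℂ × ℂ), 0 < l ∧ f^[l] q = q ∧ q ∉ orb f p) → Claim f m p) ∧
    -- all maps of one factor with such a fixed point, without further hypothesis
    (∀ (P : Polynomial ℂ) (a y : ℂ), 2 ≤ P.natDegree → a ≠ 0 → P.eval y = (1 + a) * y →
      (‖P.derivative.eval y‖ + ‖a‖ < 1 ∨ ‖P.derivative.eval y‖ + 1 < ‖a‖) →
        Claim (elemHenon P a) 1 (y, y)) := by
  have main2 : ∀ f : ℂ × ℂ → ℂ × ℂ, IsHenonMap f → ∀ (m : ℕ) (p : ℂ × ℂ),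
      (Att f m p ∨ Rep f m p) →
      (∃ (l : ℕ) (q : ℂ × ℂ), 0 < l ∧ f^[l] q = q ∧ q ∉ orb f p) → Claim f m p :=
    fun f hf m p hap hq => claim hf hap hq
  have main3 : ∀ (P : Polynomial ℂ) (a y : ℂ), 2 ≤ P.natDegree → a ≠ 0 →
      P.eval y = (1 + a) * y →
      (‖P.derivative.eval y‖ + ‖a‖ < 1 ∨ ‖P.derivative.eval y‖ + 1 < ‖a‖) →
        Claim (elemHenon P a) 1 (y, y) := by
    intro P a y hP ha hy h
    have hap : Att (elementaryHenon P a) 1 (y, y) ∨ Rep (elementaryHenon P a) 1 (y, y) := by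
      rcases h with h | h
      · exact Or.inl (att_elementary P a y hy h)
      · exact Or.inr (rep_elementary P a y hy h)
    have hap' := att_sw hap
    rw [← sw_elem, sw_sw] at hap'
    obtain ⟨y', hne, hy'⟩ := exists_other P a y hP hy h
    have hfix : ∀ w : ℂ, P.eval w = (1 + a) * w → elemHenon P a (w, w) = (w, w) := by
      intro w hw
      simp only [elemHenon]
      rw [hw]
      congr 1
      ring
    refine main2 _ (IsHenonMap.elem P a hP ha) 1 (y, y) hap' ⟨1, (y', y'), one_pos, ?_, ?_⟩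
    · rw [Function.iterate_one]; exact hfix y' hy'
    · rintro ⟨i, hi⟩
      have h1 : (elemHenon P a)^[i] (y, y) = (y, y) := Function.iterate_fixed (hfix y hy) i
      simp only at hi
      rw [h1] at hi
      exact hne (congrArg Prod.fst hi).symm
  refine ⟨?_, main2, main3⟩
  intro hall
  obtain ⟨b, h, _, _, _, _, hψ⟩ := main3 (Polynomial.X ^ 2) (1 / 2) 0
    (by rw [Polynomial.natDegree_X_pow]) (by norm_num) (by simp)
    (by left; simp; norm_num)
  have hH0 : IsHolder (fun _ : ℂ × ℂ => (0 : ℝ)) :=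
    ⟨1, 0, one_pos, le_rfl, fun z w => by simp⟩
  obtain ⟨h1, ⟨t, ht⟩, _⟩ := hψ _ hH0
  exact ht (hall _ (IsHenonMap.elem _ _ (by rw [Polynomial.natDegree_X_pow]) (by norm_num)) _ (h1 t))

end Pool.Agent.Results.MP_eeb913_an.SinksAndSources
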